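import Pool.Agent.K4H43.IW.Cyc
import Pool.Agent.K4H94.IW.QQ
import Pool.Agent.K4H58.IWFin.Main
import Pool.Agent.K4H1.IM.Dec2

/-!
# Iwasawa's `μ = 0` conjecture and cyclotomic `ℤ_ℓ`-extensions, `ℓ ≠ p`

Let `p` be an odd prime, `R m` the `m`-th layer of the cyclotomic `ℤ_p`-extension of `ℚ` and, for
every prime `ℓ ≠ p`, `B ℓ k` the `k`-th layer of the cyclotomic `ℤ_ℓ`-extension of `ℚ`. The conjecture
`μ = 0` for all number fields `F` (`MuZero`: the `p`-ranks of the class groups of the fields `F R_m`
are bounded) is equivalent to each of the following statements.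

* The growth of these `p`-ranks is constant, up to bounded amounts, in the cyclotomic
  `ℤ_ℓ`-extensions: for every prime `ℓ ≠ p`, every number field `M` and every `k`, the `p`-ranks of
  the class groups of the fields `M B_k R_m` exceed those of `M R_m` by a bounded amount at most.
* The same, but only for the first layer `N` of the cyclotomic `ℤ_ℓ`-extension of `M`, and only if
  `N` is Galois over `ℚ`.

There is a version for every set `𝓛` of primes: `μ = 0` for the subfields of the Galois number
fields of a degree with all prime factors in `𝓛`, with `ℓ` in `𝓛` and `M` and `N` of this kind.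

Idea of the proof. Let `N` be a Galois number field and `V` the maximal elementary abelian
unramified quotient for `N R_m`. By induction it is enough to bound the coinvariants of the simple
constituents of `V` on which some `γ` of prime order `ℓ ≠ p` in `Gal(N/ℚ)` acts nontrivially, that is,
to bound `[γ, V]`. Let `k` be maximal with `B_k ⊆ N`. If `γ` acts nontrivially on `B_k`, then `N` is the
first layer of the cyclotomic `ℤ_ℓ`-extension of the fixed field of `γ`. Otherwise lift `γ` to an
automorphism of `N B_{k+1}` over `B_k` of order `ℓ` which is not trivial on `B_{k+1}`; its fixed field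
`M` contains `B_k`, its first layer is `N B_{k+1}`, and `[γ, V]` is controlled by the growth from `M`
to `N B_{k+1}`.

The inputs are due to helper94 (class numbers of the layers `R_m`), helper58 and helper83
(finiteness of the `p`-rank of the class group) and helper1 (the number of primes of `R_m` above `ℓ`
is bounded); `IsCycTower` is due to helper24.
-/

set_option autoImplicit false

namespace Pool.Agent.Results.MP_a4986b_nt.CyclotomicLayers

open Module IntermediateField Pool.Agent.Q60.MU Pool.Agent.K4H24.IW Pool.Agent.K4H43.IW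

/-- **`μ = 0` and cyclotomic `ℤ_ℓ`-extensions.** -/
theorem result (p : ℕ) (hp : p.Prime) (hp2 : p ≠ 2) (R : ℕ → IntermediateField ℚ Qb)
    (hR : IsCycTower p R) (B : ℕ → ℕ → IntermediateField ℚ Qb)
    (hB : ∀ ℓ : ℕ, ℓ.Prime → ℓ ≠ p → IsZExt ℓ (B ℓ)) (𝓛 : Set ℕ) :
    ((∀ F : IntermediateField ℚ Qb, IsLField 𝓛 F → MuZero p R F) ↔
      ∀ ℓ ∈ 𝓛, ℓ.Prime → ℓ ≠ p → ∀ M : IntermediateField ℚ Qb, IsLField 𝓛 M → ∀ k : ℕ,
        SameGrowth p R M (M ⊔ B ℓ k)) ∧
    ((∀ F : IntermediateField ℚ Qb, IsLField 𝓛 F → MuZero p R F) ↔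
      ∀ ℓ ∈ 𝓛, ℓ.Prime → ℓ ≠ p → ∀ M N : IntermediateField ℚ Qb, FirstLayer 𝓛 (B ℓ) M N →
        SameGrowth p R M N) := by
  have : Fact p.Prime := ⟨hp⟩
  exact muZero_iff_cyc Pool.Agent.K4H58.IWFin.s_fin Pool.Agent.K4H94.IW.qq p hp2 R hR
    (Pool.Agent.K4H1.IM.fin_dec hp2 hR) B hB 𝓛

end Pool.Agent.Results.MP_a4986b_nt.CyclotomicLayers
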