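import Pool.Agent.K4H1.IM.Tow

/-!
# Iwasawa's conjecture `μ = 0`: reduction to CM fields and to fields with few real places

`Qb` is an algebraic closure of `ℚ`. For a number field `E` in `Qb`, `DegLe p E C` says that every
finite elementary abelian `p`-extension of `E` which is unramified at all finite primes has degree
at most `C`: by class field theory, `Cl(E)/p` has at most `C` elements (in the narrow sense if
`p = 2`). For an odd prime `p` let `R m` be the `m`-th layer of the cyclotomic `ℤ_p`-extension of
`ℚ` (`IsCycTower p R`). `MuZero p R E` says that these numbers are bounded for the layers `E (R m)`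
of the cyclotomic `ℤ_p`-extension of `E`, that is `μ = 0` for `E`.

`MuFor p R P` says that `μ = 0` for all number fields with the property `P`.

`CMGood p E`: `E` is a CM field of degree prime to `p` and every abelian group of automorphisms of
`E` is cyclic (the order of the automorphism group is then prime to `p`). `realPlaces E` is the
number of real embeddings of `E`.

(1) `μ = 0` for all number fields if and only if `μ = 0` for all CM fields `E` with `CMGood p E` and
for all number fields with exactly one or two real embeddings.

(2) Let `N` be a number field which is Galois over `ℚ`. Each of the following is equivalent to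
`μ = 0` for `N`:
* `μ = 0` for all subfields `E` of `N` which satisfy `CMGood p E` or for which the number of real
  embeddings is not divisible by `p`;
* `μ = 0` for the real subfield of `N` (for a complex embedding `φ`) and for all subfields of `N`
  which are Galois over `ℚ` and totally real or CM;
* for any subgroup `D` of the Galois group, for example a decomposition group of a prime: `μ = 0`
  for all subfields `E` of `N` such that the number of embeddings of `E` into the fixed field of
  `D` is prime to `p`, or such that there is no such embedding, the degree and the order of the
  automorphism group of `E` are prime to `p` and every abelian group of automorphisms of `E` is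
  cyclic.

(3) Let `N / F` be a Galois extension of degree `n` of number fields in which at most `t` primes of
`F` ramify, and let `c` be an element of its Galois group with `c ^ 2 = 1`. If `Cl/p` has at most `C`
elements for the field `fixedPart c N` of the elements of `N` fixed by `c`, and for the largest
Galois extension `centralPart F c N` of `F` in `N` on which `c` is central, then `Cl(N)/p` has at
most `(n ^ (n ^ 3 + n * t + 2) * C) ^ (2 * n)` elements.

The idea: on a simple `𝔽_p`-module of the Galois group a complex conjugation has a nonzero fixed
vector or acts as `-1`. In the first case the number of nonzero fixed vectors is `-1` modulo `p`, so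
that there is an orbit containing a number of fixed vectors prime to `p`, which is the number of
real embeddings of the field belonging to the orbit. In the second case all complex conjugations
agree, and one takes a vector with maximal stabiliser among the vectors fixed by a Sylow subgroup:
then the automorphisms of its field act freely on the nonzero vectors of a vector space. -/

set_option autoImplicit false

namespace Pool.Agent.Results.MP_a4986b_nt.RealAndCMSubfields

open Pool.Agent.Q60.MU Pool.Agent.K4H24.IW Pool.Agent.K4H1.IM

theorem result (p : ℕ) [Fact p.Prime] (hp : p ≠ 2) (R : ℕ → IntermediateField ℚ Qb)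
    (hR : IsCycTower p R) :
    ((MuFor p R fun _ => True) ↔
      MuFor p R fun E => CMGood p E ∨ realPlaces E = 1 ∨ realPlaces E = 2) ∧
    (∀ N, GaloisField N →
      (MuZero p R N ↔ MuFor p R fun E => E ≤ N ∧ (CMGood p E ∨ ¬ p ∣ realPlaces E)) ∧
      (∀ φ M, IsRealPart φ N M →
        (MuZero p R N ↔ MuZero p R M ∧ MuFor p R fun K => K ≤ N ∧ RealOrCM K)) ∧
      ∀ D, MuZero p R N ↔ MuFor p R fun E => E ≤ N ∧ EmbGood p D E) ∧
    (∀ F N n t, GaloisOfDegree F N n → RamLe F N t → ∀ c, Involution F N c → ∀ C,
      DegLe p (fixedPart c N) C → DegLe p (centralPart F c N) C →
      DegLe p N ((n ^ (n ^ 3 + n * t + 2) * C) ^ (2 * n))) := by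
  refine ⟨⟨fun h F hF _ => h F hF trivial, fun h F hF _ => (all_iff hp hR).2 h F hF⟩, ?_, ?_⟩
  · rintro N ⟨hN, hNn⟩
    refine ⟨?_, fun φ M hM => ?_, fun D => ?_⟩
    · rw [muFor_le hN]
      exact cm_iff hp hR hN hNn
    · rw [muFor_le hN, real_cm_iff hp hR hN hNn hM]
      exact and_congr_right fun _ => forall_congr' fun K => forall_congr' fun _ =>
        ⟨fun h h1 => h h1.1 h1.2, fun h h1 h2 => h ⟨h1, h2⟩⟩
    · rw [muFor_le hN]
      exact emb_iff hp hR hN hNn D
  · intro F N n t hG ht c hc C h1 h2
    exact explicit_involution p F N n hG t ht hc.1 hc.2 C h1 h2

end Pool.Agent.Results.MP_a4986b_nt.RealAndCMSubfields
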