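import Pool.Agent.K4H24.IW.Dens

/-!
# Iwasawa's conjecture `μ = 0` and fields with the same number of primes above `p`

`Qb` is an algebraic closure of `ℚ`. For a number field `E` in `Qb`, `DegLe p E C` says that every
finite elementary abelian `p`-extension of `E` which is unramified at all finite primes has degree
at most `C`: by class field theory, `Cl(E)/p` has at most `C` elements (in the narrow sense if
`p = 2`). `MuZero p R E` says that these numbers are bounded for the layers `E R₀, E R₁, …`; if `R`
is the cyclotomic `ℤ_p`-extension of `ℚ` this is the vanishing of the `μ`-invariant of `E`.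
The primes of `E` above `p` are the orbits of `Gal(Qb/E)` on the valuation rings `A` of `Qb` whose
maximal ideal contains `p`.

Let `F / M` be an extension of number fields of degree prime to `p`, such that the class groups of
`F` and `M` have the same `p`-rank, and such that every prime of `M` above `p` has exactly one prime
of `F` above it. Then the class groups of the layers `F_m` and `M_m` of the cyclotomic
`ℤ_p`-extensions have the same `p`-rank, for every `m`. So `μ = 0` for `M` if and only if `μ = 0`
for `F`; if `M` is abelian over `ℚ`, then `μ = 0` for `F` by the theorem of Ferrero and Washington.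
If some `σ₀` has as many orbits on the embeddings of `F` as on the embeddings of `M`, this applies
to a set of primes `p` of positive lower density.
-/

set_option autoImplicit false

namespace Pool.Agent.Results.MP_a4986b_nt.SamePrimesAbove

open Pool.Agent.Q60.MU Pool.Agent.K4H24.IW IntermediateField Module

/-- The conclusion: the class groups of the layers `M R_m` and `F R_m` have the same `p`-rank, so
that `μ = 0` for `M` if and only if `μ = 0` for `F`. -/
def SameRanks (p : ℕ) (M F : IntermediateField ℚ Qb) : Prop :=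
  ∀ R : ℕ → IntermediateField ℚ Qb, IsCycTower p R →
    (∀ m C, DegLe p (M ⊔ R m) C ↔ DegLe p (F ⊔ R m) C) ∧ (MuZero p R M ↔ MuZero p R F)

theorem rankClLe_of_one {p : ℕ} {M F : IntermediateField ℚ Qb} (hM : FiniteDimensional ℚ M)
    (h : DegLe p F 1) : RankClLe p F M := by
  refine ⟨0, fun h0 => ?_, h⟩
  rw [← rankLe_iff] at h0
  have h1 := h0 M.fixingSubgroup le_rfl M.fixingSubgroup_isOpen (by simp) (gens_subset)
  simp at h1

theorem prime_deg {M F : IntermediateField ℚ Qb} (hF : FiniteDimensional ℚ F) (hMF : M ≤ F) :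
    ∃ S : Finset ℕ, ∀ p : ℕ, p.Prime → p ∉ S → PrimeDeg p F M := by
  classical
  have h1 := Subgroup.relIndex_mul_index (fixingSubgroup_le hMF)
  have hF0 := index_ne_zero' F
  have h0 : F.fixingSubgroup.relIndex M.fixingSubgroup ≠ 0 := by
    intro h
    rw [h, zero_mul] at h1
    exact hF0 h1.symm
  refine ⟨(F.fixingSubgroup.relIndex M.fixingSubgroup).primeFactors, fun p hp hpS =>
    ⟨F.fixingSubgroup.relIndex M.fixingSubgroup, ?_, fun hd =>
      hpS (Nat.mem_primeFactors.2 ⟨hp, hd, h0⟩)⟩⟩
  rw [finrank_eq_fixingSubgroup_index, finrank_eq_fixingSubgroup_index, h1]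

/-- `F` and `M` are Galois over `ℚ`, and `F / M` is cyclic; `σ₀` generates its Galois group -/
def CyclicGalois (σ₀ : Gal(Qb/ℚ)) (M F : IntermediateField ℚ Qb) : Prop :=
  IsGalois ℚ M ∧ IsGalois ℚ F ∧ σ₀ ∈ M.fixingSubgroup ∧
    ∀ σ ∈ M.fixingSubgroup, ∃ i : ℤ, ∀ x ∈ F, σ x = (σ₀ ^ i) x

theorem CyclicGalois.sameOrbits {σ₀ : Gal(Qb/ℚ)} {M F : IntermediateField ℚ Qb}
    (h : CyclicGalois σ₀ M F) : SameOrbits σ₀ M F := by
  obtain ⟨hM, hF, _, hgen⟩ := h
  intro g σ hσ
  have hMn : M.fixingSubgroup.Normal := (InfiniteGalois.normal_iff_isGalois M).2 hM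
  obtain ⟨i, hi⟩ := hgen (g * σ * g⁻¹) (hMn.conj_mem σ hσ g)
  refine ⟨i, fun x hx => ?_⟩
  have hFn : F.fixingSubgroup.Normal := (InfiniteGalois.normal_iff_isGalois F).2 hF
  have hgx : g x ∈ F := by
    have h3 : F = fixedField F.fixingSubgroup :=
      (InfiniteGalois.fixedField_fixingSubgroup F).symm
    rw [h3, mem_fixedField_iff]
    intro τ hτ
    have h4 := hFn.conj_mem τ hτ g⁻¹
    rw [inv_inv] at h4
    have h5 := (IntermediateField.mem_fixingSubgroup_iff _ _).1 h4 x hx
    have h6 : g ((g⁻¹ * τ * g) x) = τ (g x) := by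
      rw [← AlgEquiv.mul_apply, ← mul_assoc, ← mul_assoc, mul_inv_cancel, one_mul,
        AlgEquiv.mul_apply]
    rw [← h6, h5]
  rw [← hi (g x) hgx, ← AlgEquiv.mul_apply, inv_mul_cancel_right, AlgEquiv.mul_apply]

/-- **Main theorem.** Let `M ≤ F` be number fields in `Qb`.

(1) Let `p` be an odd prime which does not divide the degree of `F / M`, such that the `p`-rank of the
class group of `F` is at most the `p`-rank of the class group of `M`, and such that every prime of `M`
above `p` has exactly one prime of `F` above it. Then the class groups of the layers of the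
cyclotomic `ℤ_p`-extensions of `M` and `F` have the same `p`-ranks, and `μ = 0` for `M` if and only
if `μ = 0` for `F`.

(2) Let `σ₀` be an automorphism of `Qb` with the same number of orbits on the embeddings of `F` as on
the embeddings of `M` (for example let `F` and `M` be Galois over `ℚ`, let `F / M` be cyclic and let
`σ₀` be a generator of its Galois group). Then the conclusion of (1) holds for a set of odd primes
`p` of positive lower density (relative to the set of all primes), if the primes which divide the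
class number of `F`, of which there are only finitely many, are left aside. -/
theorem result (M F : IntermediateField ℚ Qb) (hF : FiniteDimensional ℚ F) (hMF : M ≤ F) :
    (∀ (p : ℕ) [Fact p.Prime], p ≠ 2 → PrimeDeg p F M → RankClLe p F M →
      (∀ A : ValuationSubring Qb, (p : Qb) ∈ A.nonunits → OneAbove M F A) → SameRanks p M F) ∧
    (∀ σ₀ : Gal(Qb/ℚ), SameOrbits σ₀ M F ∨ CyclicGalois σ₀ M F →
      ∃ c : ℝ, 0 < c ∧ ∃ N₀ : ℕ, ∀ N, N₀ ≤ N → c * (Nat.primeCounting N : ℝ) ≤
        ({p : ℕ | p ≤ N ∧ p.Prime ∧ p ≠ 2 ∧ (DegLe p F 1 → SameRanks p M F)}.ncard : ℝ)) := by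
  have h2 : ∀ (p : ℕ) [Fact p.Prime], p ≠ 2 → PrimeDeg p F M → RankClLe p F M →
      (∀ A : ValuationSubring Qb, (p : Qb) ∈ A.nonunits → OneAbove M F A) → SameRanks p M F :=
    fun p _ hp2 hd hcl hone R hR =>
      ⟨tower_main hp2 hF hMF hd hcl hone hR, mu_main hp2 hF hMF hd hcl hone hR⟩
  refine ⟨h2, ?_⟩
  rintro σ₀ h
  have hσ₀ : SameOrbits σ₀ M F := by
    rcases h with h | h
    · exact h
    · exact h.sameOrbits
  have hM : FiniteDimensional ℚ M :=
    Submodule.finiteDimensional_of_le (S₁ := Subalgebra.toSubmodule M.toSubalgebra)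
      (S₂ := Subalgebra.toSubmodule F.toSubalgebra) hMF
  obtain ⟨S, hS⟩ := prime_deg hF hMF
  obtain ⟨c, hc, N₀, hN₀⟩ := exists_density hF σ₀ (insert 2 S)
  refine ⟨c, hc, N₀, fun N hN => ?_⟩
  refine hN₀ N hN {p | p.Prime ∧ p ≠ 2 ∧ (DegLe p F 1 → SameRanks p M F)} ?_
  intro p hp hpS h
  have hp2 : p ≠ 2 := fun h2 => hpS (by rw [h2]; exact Finset.mem_insert_self _ _)
  have hpS' : p ∉ S := fun h2 => hpS (Finset.mem_insert_of_mem h2)
  have : Fact p.Prime := ⟨hp⟩
  exact ⟨hp, hp2, fun hcl => h2 p hp2 (hS p hp hpS') (rankClLe_of_one hM hcl) (h M hσ₀)⟩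

end Pool.Agent.Results.MP_a4986b_nt.SamePrimesAbove
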