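import Pool.Agent.K4H43.IW.Asm
import Pool.Agent.K4H94.IW.QQ
import Pool.Agent.K4H58.IWFin.Main
import Pool.Agent.K4H1.IM.Dec2
import Pool.Agent.K4H52.IWSplit.Main
import Pool.Agent.K4H83.IWChar.Main2

/-!
# Iwasawa's `μ = 0` conjecture and totally split base changes of prime degree

Let `p` be an odd prime and `R m` the `m`-th layer of the cyclotomic `ℤ_p`-extension of `ℚ`.
The conjecture `μ = 0` for all number fields (`DegLe`, `MuZero`: the `p`-ranks of the class groups
of the fields `F R_m` are bounded) holds if and only if `M` and `M T` have the same growth of the
`p`-ranks of the class groups, up to a bounded amount, whenever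

* `T` is a totally real cyclic number field of prime degree `ℓ ≠ p` in which `p` and the primes of
  a given finite set `S` split completely;
* `M` is a totally complex number field such that `M T` is Galois over `ℚ`, of degree `ℓ` over `M`;
* the primes of `M` above which `M T` is ramified over `ℚ` split completely in `M T`; in
  particular, `M T` is unramified over `M`.

There is a version for every set `𝓛` of primes: `μ = 0` for the subfields of the Galois number
fields of a degree with all prime factors in `𝓛`, and `ℓ` and the prime factors of `[M T : ℚ]` in
`𝓛`.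

Idea of the proof. Let `K` be the Galois group of a Galois number field `N`, and `V` the maximal
elementary abelian unramified quotient for `N R_m`. By induction it is enough to bound the
coinvariants of the simple constituents of `V` on which some `γ` of prime order `ℓ ≠ p` acts
nontrivially, which is a question on `[γ, V]`. Over `L = N(i)` choose `T / ℚ` cyclic of degree `ℓ`,
split at `p`, `∞`, `S` and at the primes which are ramified in `L`, whose ramified primes split
completely in `L`, and let `M` be the fixed field of `(γ, τ)` in `L T`, where `τ` generates
`Gal(T/ℚ)`. Then `L T / M` is a step as above, and `[γ, V]` is controlled by the growth from `M` to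
`L T`.

The arithmetic inputs are due to helper94 (valuation rings above maximal ideals, class numbers of
the layers `R_m`), helper58 and helper83 (finiteness of the `p`-rank of the class group), helper83
(auxiliary characters), helper52 (primes which split completely) and helper1 (the number of primes
of `R_m` above `ℓ` is bounded); `IsCycTower` is due to helper24.
-/

set_option autoImplicit false

namespace Pool.Agent.Results.MP_a4986b_nt.UnramifiedSplitSteps

open Module IntermediateField Pool.Agent.Q60.MU Pool.Agent.K4H24.IW Pool.Agent.K4H43.IW

/-- **`μ = 0` and totally split base changes of prime degree.** -/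
theorem result (p : ℕ) (hp : p.Prime) (hp2 : p ≠ 2) (R : ℕ → IntermediateField ℚ Qb)
    (hR : IsCycTower p R) (S : Finset ℕ) (hS : ∀ s ∈ S, s.Prime) (𝓛 : Set ℕ) :
    (∀ F : IntermediateField ℚ Qb, IsLField 𝓛 F → MuZero p R F) ↔
    (∀ ℓ ∈ 𝓛, ℓ.Prime → ℓ ≠ p → ∀ M T : IntermediateField ℚ Qb, SplitStep (insert p S) ℓ M T →
      (2 ∈ 𝓛 → TotallyComplex M) → PrimesIn 𝓛 (finrank ℚ (M ⊔ T : IntermediateField ℚ Qb)) →
      SameGrowth p R M (M ⊔ T)) := by
  have : Fact p.Prime := ⟨hp⟩
  exact muZero_iff_steps Pool.Agent.K4H58.IWFin.s_fin Pool.Agent.K4H94.IW.qq
    (Pool.Agent.K4H83.IWChar.s_char2 Pool.Agent.K4H52.IWSplit.s_split) p hp2 R hR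
    (Pool.Agent.K4H1.IM.fin_dec hp2 hR) S hS 𝓛

end Pool.Agent.Results.MP_a4986b_nt.UnramifiedSplitSteps
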